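import Pool.Agent.W360.BQ.Stm
import Pool.Agent.W573.IW.Flow

/-! Project BQ, block V: the main flow theorem with a variable coefficient of `u_{z zbar}`. -/

set_option autoImplicit false

namespace Pool.Agent.W440.BQ.Flow

open Pool.Agent.W360.BQ
open Pool.Agent.W488.IW hiding Dat sm smI Vf VN VI pr Sol Conv S_ODE S_EN S_COMP S_LIM S_LEQ S_STR
  S_TAIL S_CONC
open Pool.Agent.W573.IW.Flow (norm_ka_sq norm_kb_sq ek_cont tp_cont gd_cont int_of_cont DIV_cont
  DIV_sub DIV_bound quad_bound lipc box_mono tp_restrict)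
open MeasureTheory Set Filter Topology

theorem lip_cont {E F : Type} [NormedAddCommGroup E] [NormedAddCommGroup F] (g : E → F)
    (h : ∃ L : ℝ, ∀ x y, ‖g x - g y‖ ≤ L * ‖x - y‖) : Continuous g := by
  obtain ⟨L, hL⟩ := h
  have : LipschitzWith (NNReal.mk |L| (abs_nonneg L)) g := by
    refine LipschitzWith.of_dist_le_mul fun x y => ?_
    rw [dist_eq_norm, dist_eq_norm, NNReal.coe_mk]
    exact (hL x y).trans (mul_le_mul_of_nonneg_right (le_abs_self _) (norm_nonneg _))
  exact this.continuous

theorem Vh_cont (s : ℂ × ℂ → ℂ) (m : ℂ × ℂ → ℝ) (n : ℝ) (hcf : Cf s m n) (Λ : Finset Idx)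
    (c : Idx → ℂ) : Continuous (Vh s m Λ c) := by
  have hs : Continuous s := lip_cont s hcf.sl
  have hm : Continuous m := lip_cont m (by
    obtain ⟨L, hL⟩ := hcf.ml
    exact ⟨L, fun x y => by rw [Real.norm_eq_abs]; exact hL x y⟩)
  unfold Vh Vg pp qq rr
  have h1 : Continuous fun x => s (gd Λ c x) := hs.comp (gd_cont Λ c)
  have h0 : Continuous fun x => ((m (gd Λ c x) : ℝ) : ℂ) :=
    Complex.continuous_ofReal.comp (hm.comp (gd_cont Λ c))
  have h2 := tp_cont Λ (fun k => ka k ^ 2) c
  have h3 := tp_cont Λ (fun k => ka k * kb k) c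
  have h4 := tp_cont Λ (fun k => kb k ^ 2) c
  have h5 : Continuous fun x => (starRingEnd ℂ) (s (gd Λ c x)) :=
    Complex.continuous_conj.comp h1
  exact ((h0.mul h3).add (h1.mul h2)).add (h5.mul h4)

/-! ### continuity of the abstract velocity -/

section abs

variable {H : Type} [NormedAddCommGroup H] [InnerProductSpace ℂ H] [CompleteSpace H]

theorem cont_adj (D : Dat H) (k : Idx) :
    Continuous (fun ab : H × H => (ContinuousLinearMap.adjoint (D.s ab.1 ab.2)) (D.e k)) := by
  set f : H → H → H := fun a b => (ContinuousLinearMap.adjoint (D.s a b)) (D.e k) with hf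
  have h : ∀ a b a' b', ‖f a b - f a' b'‖ ≤ D.L * (‖a - a'‖ + ‖b - b'‖) := by
    intro a b a' b'
    exact D.h3 a b a' b' k
  exact lipc f D.L h

theorem comp_continuous_adj (D : Dat H) (k : Idx) {S : Set ℝ} {f : ℝ → H × H}
    (hf : ContinuousOn f S) :
    ContinuousOn (fun t => (ContinuousLinearMap.adjoint (D.s (f t).1 (f t).2)) (D.e k)) S :=
  (cont_adj D k).comp_continuousOn hf

theorem sm_cont (D : Dat H) (Λ : Finset Idx) (w : Idx → ℂ) (S : Set ℝ) (c : ℝ → Idx → ℂ)
    (hc : ∀ k ∈ Λ, ContinuousOn (fun t => c t k) S) : ContinuousOn (fun t => sm D Λ w (c t)) S := by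
  unfold sm
  refine continuousOn_finsetSum _ fun k hk => ?_
  exact (continuousOn_const.mul (hc k hk)).smul continuousOn_const

theorem VN_cont (D : Dat H) (Λ : Finset Idx) (S : Set ℝ) (c : ℝ → Idx → ℂ)
    (hc : ∀ k ∈ Λ, ContinuousOn (fun t => c t k) S) : ContinuousOn (fun t => VN D Λ (c t)) S := by
  have ha := sm_cont D Λ ka S c hc
  have hb := sm_cont D Λ kb S c hc
  have hab : ContinuousOn (fun t => (sm D Λ ka (c t), sm D Λ kb (c t))) S := ha.prodMk hb
  unfold VN Vf
  refine ContinuousOn.add (ContinuousOn.add ?_ ?_) ?_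
  · have e : ∀ t, D.m (sm D Λ ka (c t)) (sm D Λ kb (c t)) (sm D Λ (fun k => ka k * kb k) (c t))
        = ∑ k ∈ Λ, (ka k * kb k * c t k) • D.m (sm D Λ ka (c t)) (sm D Λ kb (c t)) (D.e k) := by
      intro t
      conv_lhs => rw [Pool.Agent.W360.BQ.sm.eq_def (w := fun k => ka k * kb k)]
      rw [map_sum]
      exact Finset.sum_congr rfl fun k _ => map_smul _ _ _
    simp only [e]
    refine continuousOn_finsetSum _ fun k hk => ?_
    refine (continuousOn_const.mul (hc k hk)).smul ?_
    exact (lipc (fun a b => D.m a b (D.e k)) D.L (fun a b a' b' => D.c3 a b a' b' k)).comp_continuousOn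
      hab
  · have e : ∀ t, D.s (sm D Λ ka (c t)) (sm D Λ kb (c t)) (sm D Λ (fun k => ka k ^ 2) (c t))
        = ∑ k ∈ Λ, (ka k ^ 2 * c t k) • D.s (sm D Λ ka (c t)) (sm D Λ kb (c t)) (D.e k) := by
      intro t
      conv_lhs => rw [Pool.Agent.W360.BQ.sm.eq_def (w := fun k => ka k ^ 2)]
      rw [map_sum]
      exact Finset.sum_congr rfl fun k _ => map_smul _ _ _
    simp only [e]
    refine continuousOn_finsetSum _ fun k hk => ?_
    refine (continuousOn_const.mul (hc k hk)).smul ?_
    exact (lipc (fun a b => D.s a b (D.e k)) D.L (fun a b a' b' => D.h2 a b a' b' k)).comp_continuousOn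
      hab
  · have e : ∀ t, (D.s (sm D Λ ka (c t)) (sm D Λ kb (c t))).adjoint
          (sm D Λ (fun k => kb k ^ 2) (c t))
        = ∑ k ∈ Λ, (kb k ^ 2 * c t k) •
          (D.s (sm D Λ ka (c t)) (sm D Λ kb (c t))).adjoint (D.e k) := by
      intro t
      conv_lhs => rw [Pool.Agent.W360.BQ.sm.eq_def (w := fun k => kb k ^ 2)]
      rw [map_sum]
      exact Finset.sum_congr rfl fun k _ => map_smul _ _ _
    rw [show (fun t => (D.s (sm D Λ ka (c t)) (sm D Λ kb (c t))).adjoint
          (sm D Λ (fun k => kb k ^ 2) (c t))) = fun t => ∑ k ∈ Λ, (kb k ^ 2 * c t k) •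
          (D.s (sm D Λ ka (c t)) (sm D Λ kb (c t))).adjoint (D.e k) from funext e]
    refine continuousOn_finsetSum _ fun k hk => ?_
    have h1 := continuousOn_const (c := kb k ^ 2) |>.mul (hc k hk)
    have h2 : ContinuousOn (fun t => (ContinuousLinearMap.adjoint (D.s (sm D Λ ka (c t))
      (sm D Λ kb (c t)))) (D.e k)) S := comp_continuous_adj D k (f := fun t => (sm D Λ ka (c t), sm D Λ kb (c t))) hab
    exact h1.smul h2

theorem pr_cont (D : Dat H) (Λ : Finset Idx) : Continuous (pr D Λ) := by
  unfold pr
  refine continuous_finsetSum _ fun k _ => ?_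
  exact (continuous_const.inner continuous_id).smul continuous_const

end abs

/-! ### assembly -/

theorem main (hODE : S_ODE) (hEN : S_EN) (hTAIL : S_TAIL) (hCONC : S_CONC) (hCH : S_CHAIN)
    (hP : S_PARS) : S_FLOWV := by
  intro s m n hcf w hw hKK hw0 hw1 hpos N0 c
  have hn : 2 < n := hcf.hn
  obtain ⟨K, hK⟩ := hKK
  obtain ⟨H, i1, i2, i3, D, hDn, hC1, hC2⟩ := hCONC s m n hcf
  have hK0 : 0 ≤ K := le_trans (norm_nonneg (fderiv ℝ (fderiv ℝ w) 0)) (hK 0)
  have hwc : Continuous w := hw.continuous
  have hn2 : 0 < n - 2 := by linarith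
  set c0 : Idx → ℂ := fun k => if k ∈ box N0 then c k else 0 with hc0
  set J0 : ℝ := ∫ x in Icc (0 : V) 1, w (gd (box N0) c x) with hJ0
  set E0 : ℝ := ∑ k ∈ box N0, m2 k * ‖c k‖ ^ 2 with hE0
  have hgd : ∀ N, N0 ≤ N → ∀ x, gd (box N) c0 x = gd (box N0) c x := by
    intro N hN x
    unfold gd
    rw [tp_restrict hN, tp_restrict hN]
  have hen : ∀ N, N0 ≤ N → en N c0 = E0 := by
    intro N hN
    unfold en
    rw [hE0, ← Finset.sum_subset (box_mono hN)]
    · exact Finset.sum_congr rfl fun k hk => by simp [hc0, hk]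
    · intro k _ hk
      simp [hc0, hk]
  -- the key inequality
  have key : ∀ T : ℝ, 0 < T → ∀ η : ℝ, 0 < η →
      -(2 * K * (E0 * Real.exp (-(2 * (n - 2) * Real.pi ^ 2 * T)))) ≤
        J0 + K * (9 * η / 2) * (E0 / (2 * (n - 2))) := by
    intro T hT η hη
    have hsol : ∀ j : ℕ, ∃ cs, Sol D (N0 + j) T c0 cs := by
      intro j
      refine hODE H D (N0 + j) T c0 hT fun k hk => ?_
      have : k ∉ box N0 := fun h => hk (box_mono (Nat.le_add_right _ _) h)
      simp [hc0, this]
    choose cs hcs using hsol
    obtain ⟨ψ, hψ, hlim⟩ := hTAIL H D T c0 (fun j => N0 + j) cs hT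
      (fun a b h => by simpa using h) hcs
    have main_j : ∀ j : ℕ, -(2 * K * (E0 * Real.exp (-(2 * (n - 2) * Real.pi ^ 2 * T)))) ≤
        J0 + K * (9 * η / 2) * (E0 / (2 * (n - 2))) + K / (2 * η) *
          ∫ t in Icc 0 T, ‖VN D (box (N0 + j)) (cs j t)
            - pr D (box (N0 + j)) (VN D (box (N0 + j)) (cs j t))‖ ^ 2 := by
      intro j
      set N := N0 + j with hN
      have hNN : N0 ≤ N := Nat.le_add_right _ _
      obtain ⟨s1, s2, s3⟩ := hcs j
      obtain ⟨e1, e2⟩ := hEN H D N T c0 (cs j) hT (hcs j)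
      have hcc : ∀ k ∈ box N, ContinuousOn (fun t => cs j t k) (Icc 0 T) := fun k hk t ht =>
        (s3 k hk t ht).continuousWithinAt
      have hVN := VN_cont D (box N) (Icc 0 T) (cs j) hcc
      set R : ℝ → ℝ := fun t => ‖VN D (box N) (cs j t)
            - pr D (box N) (VN D (box N) (cs j t))‖ ^ 2 with hR
      have hRc : ContinuousOn R (Icc 0 T) :=
        ((hVN.sub ((pr_cont D (box N)).comp_continuousOn hVN)).norm).pow 2
      have hdc : ContinuousOn (fun t => di N (cs j t)) (Icc 0 T) := by
        unfold di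
        exact continuousOn_finsetSum _ fun k hk => continuousOn_const.mul ((hcc k hk).norm.pow 2)
      have hchain := hCH w hw N T (cs j) (fun t k => inner ℂ (D.e k : H) (VN D (box N) (cs j t)))
        hT (fun k hk t ht => s3 k hk t ht) (fun k hk => continuousOn_const.inner hVN)
      set g : ℝ → ℝ := fun t => ∫ x in Icc (0 : V) 1, DIV w (gd (box N) (cs j t) x)
        (pp (box N) (cs j t) x) (qq (box N) (cs j t) x) (rr (box N) (cs j t) x)
        (tp (box N) (fun _ => 1) (fun k => inner ℂ (D.e k : H) (VN D (box N) (cs j t))) x) with hg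
      have hJ : ∫ x in Icc (0 : V) 1, w (gd (box N) (cs j 0) x) = J0 := by
        rw [s1, hJ0]
        exact integral_congr_ae (ae_of_all _ fun x => by simp only [hgd N hNN])
      rw [hJ] at hchain
      -- lower bound of g
      have hglow : ∀ t, -(K * (9 * η / 2) * di N (cs j t) + K / (2 * η) * R t) ≤ g t := by
        intro t
        set cc := cs j t with hcc'
        have hΦ : ∀ x, tp (box N) (fun _ => 1) (fun k => inner ℂ (D.e k : H) (VN D (box N) cc)) x
            = ∑ k ∈ box N, (∫ y in Icc (0 : V) 1, (starRingEnd ℂ) (ek k y) *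
                Vh s m (box N) cc y) * ek k x := by
          intro x
          unfold tp
          refine Finset.sum_congr rfl fun k _ => ?_
          simp only
          rw [hC1, one_mul]
        set Φ : V → ℂ := fun x => ∑ k ∈ box N, (∫ y in Icc (0 : V) 1, (starRingEnd ℂ) (ek k y) *
                Vh s m (box N) cc y) * ek k x with hΦd
        have hΦc : Continuous Φ := continuous_finsetSum _ fun k _ =>
          continuous_const.mul (ek_cont k)
        have hVc := Vh_cont s m n hcf (box N) cc
        have hFc := gd_cont (box N) cc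
        have hpc : Continuous (pp (box N) cc) := tp_cont _ _ _
        have hqc : Continuous (qq (box N) cc) := tp_cont _ _ _
        have hrc : Continuous (rr (box N) cc) := tp_cont _ _ _
        have hgt : g t = (∫ x in Icc (0 : V) 1, DIV w (gd (box N) cc x) (pp (box N) cc x)
            (qq (box N) cc x) (rr (box N) cc x) (Vh s m (box N) cc x)) -
            ∫ x in Icc (0 : V) 1, DIV w (gd (box N) cc x) (pp (box N) cc x)
            (qq (box N) cc x) (rr (box N) cc x) (Vh s m (box N) cc x - Φ x) := by
          have i1 : IntegrableOn (fun x => DIV w (gd (box N) cc x) (pp (box N) cc x)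
            (qq (box N) cc x) (rr (box N) cc x) (Vh s m (box N) cc x)) (Icc (0 : V) 1) :=
            int_of_cont (DIV_cont w hw hFc hpc hqc hrc hVc)
          have i2 : IntegrableOn (fun x => DIV w (gd (box N) cc x) (pp (box N) cc x)
            (qq (box N) cc x) (rr (box N) cc x) (Vh s m (box N) cc x - Φ x)) (Icc (0 : V) 1) :=
            int_of_cont (DIV_cont w hw hFc hpc hqc hrc (hVc.sub hΦc))
          rw [← integral_sub i1 i2, hg]
          refine integral_congr_ae (ae_of_all _ fun x => ?_)
          simp only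
          rw [hΦ x, DIV_sub]
          ring
        have hup : ∫ x in Icc (0 : V) 1, DIV w (gd (box N) cc x) (pp (box N) cc x)
            (qq (box N) cc x) (rr (box N) cc x) (Vh s m (box N) cc x - Φ x) ≤
            ∫ x in Icc (0 : V) 1, (K * (3 * η / 2) * (‖pp (box N) cc x‖ ^ 2 +
              ‖qq (box N) cc x‖ ^ 2 + ‖rr (box N) cc x‖ ^ 2)
              + K / (2 * η) * ‖Vh s m (box N) cc x - Φ x‖ ^ 2) := by
          refine integral_mono (int_of_cont (DIV_cont w hw hFc hpc hqc hrc (hVc.sub hΦc)))
            (int_of_cont ?_) fun x => ?_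
          · have := hVc.sub hΦc
            fun_prop
          · have h1 := (le_abs_self _).trans (DIV_bound w K hK (gd (box N) cc x) (pp (box N) cc x)
              (qq (box N) cc x) (rr (box N) cc x) (Vh s m (box N) cc x - Φ x))
            refine h1.trans ?_
            set P := ‖pp (box N) cc x‖
            set Q := ‖qq (box N) cc x‖
            set S := ‖rr (box N) cc x‖
            set U := ‖Vh s m (box N) cc x - Φ x‖
            have h2 : (P + Q + S) * U ≤ (3 * η / 2) * (P ^ 2 + Q ^ 2 + S ^ 2) + 1 / (2 * η) * U ^ 2 := by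
              have h3 : 0 ≤ 1 / (2 * η) * (η * (P + Q + S) - U) ^ 2 := by positivity
              have h4 : 1 / (2 * η) * (η * (P + Q + S) - U) ^ 2 =
                  η / 2 * (P + Q + S) ^ 2 - (P + Q + S) * U + 1 / (2 * η) * U ^ 2 := by
                field_simp
                ring
              have h5 : (P + Q + S) ^ 2 ≤ 3 * (P ^ 2 + Q ^ 2 + S ^ 2) := by
                nlinarith [sq_nonneg (P - Q), sq_nonneg (Q - S), sq_nonneg (P - S)]
              nlinarith
            have h6 := mul_le_mul_of_nonneg_left h2 hK0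
            calc K * (P + Q + S) * U = K * ((P + Q + S) * U) := by ring
              _ ≤ _ := h6
              _ = _ := by ring
        have hval : ∫ x in Icc (0 : V) 1, (K * (3 * η / 2) * (‖pp (box N) cc x‖ ^ 2 +
              ‖qq (box N) cc x‖ ^ 2 + ‖rr (box N) cc x‖ ^ 2)
              + K / (2 * η) * ‖Vh s m (box N) cc x - Φ x‖ ^ 2) =
              K * (9 * η / 2) * di N cc + K / (2 * η) * R t := by
          rw [integral_add (int_of_cont (by fun_prop)) (int_of_cont (by
            have := hVc.sub hΦc
            fun_prop)), integral_const_mul, integral_const_mul,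
            integral_add (int_of_cont (by fun_prop)) (int_of_cont (by fun_prop)),
            integral_add (int_of_cont (by fun_prop)) (int_of_cont (by fun_prop))]
          have p1 : ∫ x in Icc (0 : V) 1, ‖pp (box N) cc x‖ ^ 2 = di N cc := by
            unfold pp di
            rw [hP]
            refine Finset.sum_congr rfl fun k _ => ?_
            rw [norm_mul, norm_pow, mul_pow, ← norm_ka_sq]
          have p2 : ∫ x in Icc (0 : V) 1, ‖qq (box N) cc x‖ ^ 2 = di N cc := by
            unfold qq di
            rw [hP]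
            refine Finset.sum_congr rfl fun k _ => ?_
            rw [norm_mul, norm_mul, mul_pow, mul_pow, norm_ka_sq, norm_kb_sq]
            ring
          have p3 : ∫ x in Icc (0 : V) 1, ‖rr (box N) cc x‖ ^ 2 = di N cc := by
            unfold rr di
            rw [hP]
            refine Finset.sum_congr rfl fun k _ => ?_
            rw [norm_mul, norm_pow, mul_pow, ← norm_kb_sq]
          have p4 : ∫ x in Icc (0 : V) 1, ‖Vh s m (box N) cc x - Φ x‖ ^ 2 = R t := by
            have hRt : R t = ‖VN D (box N) cc - pr D (box N) (VN D (box N) cc)‖ ^ 2 := rfl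
            rw [hRt, hC2 (box N) (box N) cc]
          rw [p1, p2, p3, p4]
          ring
        have hp := hpos N cc
        rw [hgt]
        linarith
      -- integrate in time
      have hint : IntervalIntegrable (fun t => K * (9 * η / 2) * di N (cs j t) + K / (2 * η) * R t)
          volume 0 T := by
        refine ContinuousOn.intervalIntegrable ?_
        rw [uIcc_of_le hT.le]
        exact (continuousOn_const.mul hdc).add (continuousOn_const.mul hRc)
      have hdint : IntervalIntegrable (fun t => di N (cs j t)) volume 0 T :=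
        ContinuousOn.intervalIntegrable (by rwa [uIcc_of_le hT.le])
      have hRint : IntervalIntegrable R volume 0 T :=
        ContinuousOn.intervalIntegrable (by rwa [uIcc_of_le hT.le])
      have hd0 : ∀ t, 0 ≤ di N (cs j t) := fun t => Finset.sum_nonneg fun k _ => by positivity
      have hnn : ∀ t, 0 ≤ K * (9 * η / 2) * di N (cs j t) + K / (2 * η) * R t := by
        intro t
        have := hd0 t
        positivity
      have hgint : -(∫ t in (0 : ℝ)..T, g t) ≤
          ∫ t in (0 : ℝ)..T, (K * (9 * η / 2) * di N (cs j t) + K / (2 * η) * R t) := by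
        by_cases hgi : IntervalIntegrable g volume 0 T
        · rw [← intervalIntegral.integral_neg]
          refine intervalIntegral.integral_mono_on hT.le hgi.neg hint fun t _ => ?_
          have := hglow t
          linarith
        · rw [intervalIntegral.integral_undef hgi, neg_zero]
          exact intervalIntegral.integral_nonneg hT.le fun t _ => hnn t
      rw [intervalIntegral.integral_add (hdint.const_mul _) (hRint.const_mul _),
        intervalIntegral.integral_const_mul, intervalIntegral.integral_const_mul] at hgint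
      have hRI : ∫ t in (0 : ℝ)..T, R t = ∫ t in Icc 0 T, R t := by
        rw [intervalIntegral.integral_of_le hT.le, integral_Icc_eq_integral_Ioc]
      rw [hRI] at hgint
      rw [hen N hNN, hDn] at e2
      have e2' : K * (9 * η / 2) * ∫ t in (0 : ℝ)..T, di N (cs j t) ≤
          K * (9 * η / 2) * (E0 / (2 * (n - 2))) :=
        mul_le_mul_of_nonneg_left e2 (by positivity)
      -- lower bound at time T
      have eT := e1 T (right_mem_Icc.2 hT.le)
      rw [hen N hNN, hDn] at eT
      have hlow : -(2 * K * en N (cs j T)) ≤ ∫ x in Icc (0 : V) 1, w (gd (box N) (cs j T) x) := by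
        have hFc := gd_cont (box N) (cs j T)
        have h1 : ∫ x in Icc (0 : V) 1, -(K * (‖tp (box N) ka (cs j T) x‖ ^ 2 +
            ‖tp (box N) kb (cs j T) x‖ ^ 2)) ≤ ∫ x in Icc (0 : V) 1, w (gd (box N) (cs j T) x) := by
          have t1 := tp_cont (box N) ka (cs j T)
          have t2 := tp_cont (box N) kb (cs j T)
          refine integral_mono (int_of_cont (by fun_prop)) (int_of_cont (hwc.comp hFc)) fun x => ?_
          have hq1 := quad_bound w hw K hK hw0 hw1 (gd (box N) (cs j T) x)
          have hq2 := neg_abs_le (w (gd (box N) (cs j T) x))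
          have hq3 : ‖(gd (box N) (cs j T) x).1‖ = ‖tp (box N) ka (cs j T) x‖ := rfl
          have hq4 : ‖(gd (box N) (cs j T) x).2‖ = ‖tp (box N) kb (cs j T) x‖ := rfl
          rw [hq3, hq4] at hq1
          linarith
        have t1 := tp_cont (box N) ka (cs j T)
        have t2 := tp_cont (box N) kb (cs j T)
        rw [integral_neg, integral_const_mul, integral_add (int_of_cont (by fun_prop))
          (int_of_cont (by fun_prop)), hP, hP] at h1
        have q1 : ∑ k ∈ box N, ‖ka k * cs j T k‖ ^ 2 = en N (cs j T) := by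
          unfold en
          refine Finset.sum_congr rfl fun k _ => ?_
          rw [norm_mul, mul_pow, norm_ka_sq]
        have q2 : ∑ k ∈ box N, ‖kb k * cs j T k‖ ^ 2 = en N (cs j T) := by
          unfold en
          refine Finset.sum_congr rfl fun k _ => ?_
          rw [norm_mul, mul_pow, norm_kb_sq]
        rw [q1, q2] at h1
        linarith
      have eT' : 2 * K * en N (cs j T) ≤
          2 * K * (E0 * Real.exp (-(2 * (n - 2) * Real.pi ^ 2 * T))) :=
        mul_le_mul_of_nonneg_left eT (by positivity)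
      linarith
    have hl2 : Tendsto (fun j => J0 + K * (9 * η / 2) * (E0 / (2 * (n - 2))) + K / (2 * η) *
          ∫ t in Icc 0 T, ‖VN D (box (N0 + ψ j)) (cs (ψ j) t)
            - pr D (box (N0 + ψ j)) (VN D (box (N0 + ψ j)) (cs (ψ j) t))‖ ^ 2) atTop
        (𝓝 (J0 + K * (9 * η / 2) * (E0 / (2 * (n - 2))) + K / (2 * η) * 0)) :=
      tendsto_const_nhds.add (tendsto_const_nhds.mul hlim)
    have := ge_of_tendsto' hl2 fun j => main_j (ψ j)
    linarith
  -- T to infinity, η to zero
  have hl3 : Tendsto (fun j : ℕ => J0 + K * (9 * (1 / ((j : ℝ) + 1)) / 2) * (E0 / (2 * (n - 2)))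
      + 2 * K * (E0 * Real.exp (-(2 * (n - 2) * Real.pi ^ 2 * ((j : ℝ) + 1))))) atTop
      (𝓝 (J0 + K * (9 * 0 / 2) * (E0 / (2 * (n - 2))) + 2 * K * (E0 * 0))) := by
    have hz : Tendsto (fun j : ℕ => 1 / ((j : ℝ) + 1)) atTop (𝓝 0) :=
      tendsto_one_div_add_atTop_nhds_zero_nat
    have hx : Tendsto (fun j : ℕ => Real.exp (-(2 * (n - 2) * Real.pi ^ 2 * ((j : ℝ) + 1)))) atTop
        (𝓝 0) := by
      refine Real.tendsto_exp_neg_atTop_nhds_zero.comp ?_
      refine Tendsto.const_mul_atTop (by positivity) ?_
      exact tendsto_atTop_add_const_right _ _ tendsto_natCast_atTop_atTop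
    exact ((tendsto_const_nhds.add (((tendsto_const_nhds.mul hz).div_const 2).const_mul K
      |>.mul_const _))).add ((hx.const_mul E0).const_mul (2 * K))
  have := ge_of_tendsto' hl3 (b := 0) fun j => by
    have := key ((j : ℝ) + 1) (by positivity) (1 / ((j : ℝ) + 1)) (by positivity)
    linarith
  simpa using this

end Pool.Agent.W440.BQ.Flow
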