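import Pool.Agent.W360.BQ.Stm
import Pool.Agent.W136.IW.Ode

/-! Project BQ, block V, part ODE: global solutions of the Galerkin system with variable
coefficient of `u_{z zbar}`. -/

set_option autoImplicit false

namespace Pool.Agent.W440.BQ.Ode

open Pool.Agent.W360.BQ
open Pool.Agent.W488.IW hiding Dat sm smI Vf VN VI pr Sol Conv S_ODE S_EN S_COMP S_LIM S_LEQ S_STR
  S_TAIL
open Pool.Agent.W136.IW.Ode (globC ext ext_mem ext_not ext_le ext_sub W W_nonneg)
open MeasureTheory Set Filter Topology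
open scoped NNReal

/-! ### the Galerkin field -/

section field

variable {H : Type} [NormedAddCommGroup H] [InnerProductSpace ℂ H] [CompleteSpace H]

theorem norm_e (D : Dat H) (k : Idx) : ‖D.e k‖ = 1 := by
  have := D.e.orthonormal.norm_eq_one k
  exact this

theorem sm_sub (D : Dat H) (N : ℕ) (w : Idx → ℂ) (u v : {k // k ∈ box N} → ℂ) :
    sm D (box N) w (ext N u) - sm D (box N) w (ext N v) = sm D (box N) w (ext N (u - v)) := by
  unfold sm
  rw [← Finset.sum_sub_distrib]
  refine Finset.sum_congr rfl fun k _ => ?_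
  rw [← sub_smul, ← mul_sub, ext_sub]

theorem sm_le (D : Dat H) (N : ℕ) (w : Idx → ℂ) (u : {k // k ∈ box N} → ℂ) :
    ‖sm D (box N) w (ext N u)‖ ≤ W N w * ‖u‖ := by
  unfold sm W
  refine (norm_sum_le _ _).trans ?_
  rw [Finset.sum_mul]
  refine Finset.sum_le_sum fun k _ => ?_
  rw [norm_smul, norm_e, mul_one, norm_mul]
  exact mul_le_mul_of_nonneg_left (ext_le N u k) (norm_nonneg _)

theorem adj_le (D : Dat H) (a b r : H) : ‖(D.s a b).adjoint r‖ ≤ ‖r‖ := by
  refine ((D.s a b).adjoint.le_opNorm r).trans ?_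
  rw [LinearIsometryEquiv.norm_map]
  calc _ ≤ 1 * ‖r‖ := mul_le_mul_of_nonneg_right (D.h1 a b) (norm_nonneg _)
    _ = ‖r‖ := one_mul _

theorem s_le (D : Dat H) (a b r : H) : ‖D.s a b r‖ ≤ ‖r‖ := by
  refine ((D.s a b).le_opNorm r).trans ?_
  calc _ ≤ 1 * ‖r‖ := mul_le_mul_of_nonneg_right (D.h1 a b) (norm_nonneg _)
    _ = ‖r‖ := one_mul _

theorem m_le (D : Dat H) (a b r : H) : ‖D.m a b r‖ ≤ |D.M| * ‖r‖ := by
  refine ((D.m a b).le_opNorm r).trans ?_
  exact mul_le_mul_of_nonneg_right ((D.c1 a b).trans (le_abs_self _)) (norm_nonneg _)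

/-- the field on the coefficients in the box -/
noncomputable def G (D : Dat H) (N : ℕ) (v : {k // k ∈ box N} → ℂ) : {k // k ∈ box N} → ℂ :=
  fun k => inner ℂ (D.e k.1 : H) (VN D (box N) (ext N v))

theorem VN_le (D : Dat H) (N : ℕ) (v : {k // k ∈ box N} → ℂ) :
    ‖VN D (box N) (ext N v)‖ ≤ (|D.M| * W N (fun k => ka k * kb k) + W N (fun k => ka k ^ 2)
      + W N (fun k => kb k ^ 2)) * ‖v‖ := by
  unfold VN Vf
  refine (norm_add_le _ _).trans ?_
  refine (add_le_add (norm_add_le _ _) (adj_le D _ _ _)).trans ?_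
  have h1 := s_le D (sm D (box N) ka (ext N v)) (sm D (box N) kb (ext N v))
    (sm D (box N) (fun k => ka k ^ 2) (ext N v))
  have h2 := sm_le D N (fun k => ka k ^ 2) v
  have h3 := sm_le D N (fun k => kb k ^ 2) v
  have h4 := sm_le D N (fun k => ka k * kb k) v
  have h5 : ‖D.m (sm D (box N) ka (ext N v)) (sm D (box N) kb (ext N v))
      (sm D (box N) (fun k => ka k * kb k) (ext N v))‖
      ≤ |D.M| * (W N (fun k => ka k * kb k) * ‖v‖) :=
    (m_le D _ _ _).trans (mul_le_mul_of_nonneg_left h4 (abs_nonneg _))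
  linarith

theorem s_lip (D : Dat H) (N : ℕ) (w : Idx → ℂ) (a b a' b' : H) (u v : {k // k ∈ box N} → ℂ) :
    ‖D.s a b (sm D (box N) w (ext N u)) - D.s a' b' (sm D (box N) w (ext N v))‖
      ≤ W N w * ‖u - v‖ + W N w * ‖v‖ * (|D.L| * (‖a - a'‖ + ‖b - b'‖)) := by
  have h1 : D.s a b (sm D (box N) w (ext N u)) - D.s a' b' (sm D (box N) w (ext N v))
      = D.s a b (sm D (box N) w (ext N (u - v)))
        + (D.s a b (sm D (box N) w (ext N v)) - D.s a' b' (sm D (box N) w (ext N v))) := by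
    rw [← sm_sub, map_sub]; abel
  rw [h1]
  refine (norm_add_le _ _).trans ?_
  refine add_le_add ((s_le D _ _ _).trans (sm_le D N w _)) ?_
  unfold sm
  rw [map_sum, map_sum, ← Finset.sum_sub_distrib]
  refine (norm_sum_le _ _).trans ?_
  unfold W
  rw [Finset.sum_mul, Finset.sum_mul]
  refine Finset.sum_le_sum fun k _ => ?_
  rw [map_smul, map_smul, ← smul_sub, norm_smul, norm_mul]
  apply mul_le_mul
  · exact mul_le_mul_of_nonneg_left (ext_le N v k) (norm_nonneg _)
  · refine (D.h2 a b a' b' k).trans ?_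
    exact mul_le_mul_of_nonneg_right (le_abs_self _) (by positivity)
  · exact norm_nonneg _
  · positivity

theorem m_lip (D : Dat H) (N : ℕ) (w : Idx → ℂ) (a b a' b' : H) (u v : {k // k ∈ box N} → ℂ) :
    ‖D.m a b (sm D (box N) w (ext N u)) - D.m a' b' (sm D (box N) w (ext N v))‖
      ≤ |D.M| * (W N w * ‖u - v‖) + W N w * ‖v‖ * (|D.L| * (‖a - a'‖ + ‖b - b'‖)) := by
  have h1 : D.m a b (sm D (box N) w (ext N u)) - D.m a' b' (sm D (box N) w (ext N v))
      = D.m a b (sm D (box N) w (ext N (u - v)))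
        + (D.m a b (sm D (box N) w (ext N v)) - D.m a' b' (sm D (box N) w (ext N v))) := by
    rw [← sm_sub, map_sub]; abel
  rw [h1]
  refine (norm_add_le _ _).trans ?_
  refine add_le_add ((m_le D _ _ _).trans
    (mul_le_mul_of_nonneg_left (sm_le D N w _) (abs_nonneg _))) ?_
  unfold sm
  rw [map_sum, map_sum, ← Finset.sum_sub_distrib]
  refine (norm_sum_le _ _).trans ?_
  unfold W
  rw [Finset.sum_mul, Finset.sum_mul]
  refine Finset.sum_le_sum fun k _ => ?_
  rw [map_smul, map_smul, ← smul_sub, norm_smul, norm_mul]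
  apply mul_le_mul
  · exact mul_le_mul_of_nonneg_left (ext_le N v k) (norm_nonneg _)
  · refine (D.c3 a b a' b' k).trans ?_
    exact mul_le_mul_of_nonneg_right (le_abs_self _) (by positivity)
  · exact norm_nonneg _
  · positivity

theorem adj_lip (D : Dat H) (N : ℕ) (w : Idx → ℂ) (a b a' b' : H) (u v : {k // k ∈ box N} → ℂ) :
    ‖(D.s a b).adjoint (sm D (box N) w (ext N u))
        - (D.s a' b').adjoint (sm D (box N) w (ext N v))‖
      ≤ W N w * ‖u - v‖ + W N w * ‖v‖ * (|D.L| * (‖a - a'‖ + ‖b - b'‖)) := by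
  have h1 : (D.s a b).adjoint (sm D (box N) w (ext N u))
        - (D.s a' b').adjoint (sm D (box N) w (ext N v))
      = (D.s a b).adjoint (sm D (box N) w (ext N (u - v)))
        + ((D.s a b).adjoint (sm D (box N) w (ext N v))
          - (D.s a' b').adjoint (sm D (box N) w (ext N v))) := by
    rw [← sm_sub, map_sub]; abel
  rw [h1]
  refine (norm_add_le _ _).trans ?_
  refine add_le_add ((adj_le D _ _ _).trans (sm_le D N w _)) ?_
  unfold sm
  rw [map_sum, map_sum, ← Finset.sum_sub_distrib]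
  refine (norm_sum_le _ _).trans ?_
  unfold W
  rw [Finset.sum_mul, Finset.sum_mul]
  refine Finset.sum_le_sum fun k _ => ?_
  rw [map_smul, map_smul, ← smul_sub, norm_smul, norm_mul]
  apply mul_le_mul
  · exact mul_le_mul_of_nonneg_left (ext_le N v k) (norm_nonneg _)
  · refine (D.h3 a b a' b' k).trans ?_
    exact mul_le_mul_of_nonneg_right (le_abs_self _) (by positivity)
  · exact norm_nonneg _
  · positivity

theorem G_le (D : Dat H) (N : ℕ) (v : {k // k ∈ box N} → ℂ) :
    ‖G D N v‖ ≤ (|D.M| * W N (fun k => ka k * kb k) + W N (fun k => ka k ^ 2)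
      + W N (fun k => kb k ^ 2)) * ‖v‖ := by
  have h0 := VN_le D N v
  rw [pi_norm_le_iff_of_nonneg ((norm_nonneg _).trans h0)]
  intro k
  refine (norm_inner_le_norm _ _).trans ?_
  rw [norm_e, one_mul]
  exact h0

theorem VN_lip (D : Dat H) (N : ℕ) (R : ℝ) (u v : {k // k ∈ box N} → ℂ) (hv : ‖v‖ ≤ R) :
    ‖VN D (box N) (ext N u) - VN D (box N) (ext N v)‖
      ≤ ((|D.M| * W N (fun k => ka k * kb k)
          + W N (fun k => ka k * kb k) * R * (|D.L| * (W N ka + W N kb)))
        + (W N (fun k => ka k ^ 2) + W N (fun k => ka k ^ 2) * R * (|D.L| * (W N ka + W N kb)))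
        + (W N (fun k => kb k ^ 2) + W N (fun k => kb k ^ 2) * R * (|D.L| * (W N ka + W N kb))))
        * ‖u - v‖ := by
  have hR : 0 ≤ R := (norm_nonneg _).trans hv
  have e1 : ‖sm D (box N) ka (ext N u) - sm D (box N) ka (ext N v)‖ ≤ W N ka * ‖u - v‖ := by
    rw [sm_sub]; exact sm_le D N ka _
  have e2 : ‖sm D (box N) kb (ext N u) - sm D (box N) kb (ext N v)‖ ≤ W N kb * ‖u - v‖ := by
    rw [sm_sub]; exact sm_le D N kb _
  have e3 : ∀ w : Idx → ℂ, W N w * ‖u - v‖ + W N w * ‖v‖ *
      (|D.L| * (‖sm D (box N) ka (ext N u) - sm D (box N) ka (ext N v)‖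
        + ‖sm D (box N) kb (ext N u) - sm D (box N) kb (ext N v)‖))
      ≤ (W N w + W N w * R * (|D.L| * (W N ka + W N kb))) * ‖u - v‖ := by
    intro w
    have h1 : |D.L| * (‖sm D (box N) ka (ext N u) - sm D (box N) ka (ext N v)‖
        + ‖sm D (box N) kb (ext N u) - sm D (box N) kb (ext N v)‖)
        ≤ |D.L| * (W N ka * ‖u - v‖ + W N kb * ‖u - v‖) :=
      mul_le_mul_of_nonneg_left (add_le_add e1 e2) (abs_nonneg _)
    have h2 : W N w * ‖v‖ ≤ W N w * R := mul_le_mul_of_nonneg_left hv (W_nonneg N w)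
    have h3 := mul_le_mul h2 h1 (by positivity) (mul_nonneg (W_nonneg N w) hR)
    calc _ ≤ W N w * ‖u - v‖ + W N w * R * (|D.L| * (W N ka * ‖u - v‖ + W N kb * ‖u - v‖)) := by
          linarith
      _ = _ := by ring
  have h1 := (s_lip D N (fun k => ka k ^ 2) (sm D (box N) ka (ext N u)) (sm D (box N) kb (ext N u))
    (sm D (box N) ka (ext N v)) (sm D (box N) kb (ext N v)) u v).trans (e3 _)
  have h2 := (adj_lip D N (fun k => kb k ^ 2) (sm D (box N) ka (ext N u))
    (sm D (box N) kb (ext N u)) (sm D (box N) ka (ext N v)) (sm D (box N) kb (ext N v)) u v).trans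
    (e3 _)
  have h3 : ‖D.m (sm D (box N) ka (ext N u)) (sm D (box N) kb (ext N u))
        (sm D (box N) (fun k => ka k * kb k) (ext N u))
      - D.m (sm D (box N) ka (ext N v)) (sm D (box N) kb (ext N v))
        (sm D (box N) (fun k => ka k * kb k) (ext N v))‖
      ≤ (|D.M| * W N (fun k => ka k * kb k)
          + W N (fun k => ka k * kb k) * R * (|D.L| * (W N ka + W N kb))) * ‖u - v‖ := by
    refine (m_lip D N (fun k => ka k * kb k) (sm D (box N) ka (ext N u))
      (sm D (box N) kb (ext N u)) (sm D (box N) ka (ext N v)) (sm D (box N) kb (ext N v))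
      u v).trans ?_
    have := e3 (fun k => ka k * kb k)
    linarith
  unfold VN Vf
  have h4 : ∀ a b c a' b' c' : H, a + b + c - (a' + b' + c') = (a - a') + (b - b') + (c - c') := by
    intro a b c a' b' c'; abel
  rw [h4]
  refine (norm_add_le _ _).trans ?_
  refine (add_le_add (norm_add_le _ _) le_rfl).trans ?_
  rw [add_mul, add_mul]
  exact add_le_add (add_le_add h3 h1) h2

theorem G_lip (D : Dat H) (N : ℕ) (R : ℝ) (hR : 0 ≤ R) :
    ∃ K : ℝ≥0, LipschitzOnWith K (G D N) (Metric.closedBall 0 R) := by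
  have n1 := W_nonneg N (fun k => ka k * kb k)
  have n2 := W_nonneg N (fun k => ka k ^ 2)
  have n3 := W_nonneg N (fun k => kb k ^ 2)
  have n4 := W_nonneg N ka
  have n5 := W_nonneg N kb
  refine ⟨NNReal.mk ((|D.M| * W N (fun k => ka k * kb k)
          + W N (fun k => ka k * kb k) * R * (|D.L| * (W N ka + W N kb)))
        + (W N (fun k => ka k ^ 2) + W N (fun k => ka k ^ 2) * R * (|D.L| * (W N ka + W N kb)))
        + (W N (fun k => kb k ^ 2) + W N (fun k => kb k ^ 2) * R * (|D.L| * (W N ka + W N kb))))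
        (by positivity), ?_⟩
  apply LipschitzOnWith.of_dist_le_mul
  intro u _ v hv
  rw [Metric.mem_closedBall, dist_zero_right] at hv
  rw [dist_eq_norm, dist_eq_norm, NNReal.coe_mk]
  have h0 := VN_lip D N R u v hv
  rw [pi_norm_le_iff_of_nonneg ((norm_nonneg _).trans h0)]
  intro k
  have : (G D N u - G D N v) k
      = inner ℂ (D.e k.1 : H) (VN D (box N) (ext N u) - VN D (box N) (ext N v)) := by
    rw [inner_sub_right]; rfl
  rw [this]
  refine (norm_inner_le_norm _ _).trans ?_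
  rw [norm_e, one_mul]
  exact h0

end field

theorem main : S_ODE := by
  intro H _ _ _ D N T c0 hT hc0
  obtain ⟨α, h0, h1⟩ := globC (G D N) _ (by
      have n1 := W_nonneg N (fun k => ka k * kb k)
      have n2 := W_nonneg N (fun k => ka k ^ 2)
      have n3 := W_nonneg N (fun k => kb k ^ 2)
      positivity) (G_le D N) (G_lip D N) T hT (fun k => c0 k.1)
  refine ⟨fun t => ext N (α t), ?_, ?_, ?_⟩
  · funext k
    by_cases h : k ∈ box N
    · simp only [h0]
      rw [ext_mem N _ k h]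
    · simp only [h0]
      rw [ext_not N _ k h, hc0 k h]
  · intro t k hk
    exact ext_not N _ k hk
  · intro k hk t ht
    have h2 := h1 t ht
    rw [hasDerivWithinAt_pi] at h2
    have h3 := h2 ⟨k, hk⟩
    have h4 : (fun t => ext N (α t) k) = fun t => α t ⟨k, hk⟩ := by
      funext t
      exact ext_mem N _ k hk
    rw [h4]
    exact h3

end Pool.Agent.W440.BQ.Ode
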