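import Pool.Agent.W682.BQ.Stm
import Pool.Agent.W573.IW.Flow

/-! Project BQ: the Burkholder-Sverak function. -/

set_option autoImplicit false

namespace Pool.Agent.W440.BQ.Qlb

open Pool.Agent.W488.IW Pool.Agent.W488.IX Pool.Agent.W682.BQ
open Pool.Agent.W360.BQ (Cf Vg QCF S_FLOWF S_NULLF)
open Pool.Agent.W573.IW.Flow (gd_cont int_of_cont)
open MeasureTheory Set Filter Topology

theorem Ls_eq (t x y : ℝ) (ht : 0 < t) :
    Ls t x y = (x ^ 2 - y ^ 2) + 2 * t * Kt t y x := by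
  have h1 : 2 * t * Kt t y x = 2 * y * max (y + x - t) 0 - max (y + x - t) 0 ^ 2 := by
    unfold Kt
    field_simp
  rw [h1]
  unfold Ls
  by_cases h : x + y ≤ t
  · rw [if_pos h, max_eq_right (by linarith)]
    ring
  · rw [if_neg h, max_eq_left (by linarith)]
    ring

theorem Kt_cont (t : ℝ) : Continuous fun z : ℝ × ℝ => Kt t z.1 z.2 := by
  unfold Kt
  fun_prop

theorem main (hK : S_QKB) (hS : S_SWAP) (hD : S_DET) : S_QLB := by
  intro t ht F0 N c
  have h1 := hS (Kt t) (hK t ht) F0 N c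
  have h2 := hD F0 N c
  have hg : Continuous fun x => F0 + gd (box N) c x := continuous_const.add (gd_cont _ _)
  have i1 : IntegrableOn (fun x => ‖(F0 + gd (box N) c x).1‖ ^ 2
      - ‖(F0 + gd (box N) c x).2‖ ^ 2) (Icc (0 : V) 1) :=
    int_of_cont (((continuous_fst.comp hg).norm.pow 2).sub ((continuous_snd.comp hg).norm.pow 2))
  have i2 : IntegrableOn (fun x => 2 * t * Kt t ‖(F0 + gd (box N) c x).2‖
      ‖(F0 + gd (box N) c x).1‖) (Icc (0 : V) 1) :=
    int_of_cont (continuous_const.mul ((Kt_cont t).comp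
      ((continuous_snd.comp hg).norm.prodMk (continuous_fst.comp hg).norm)))
  have h3 : ∫ x in Icc (0 : V) 1, Ls t ‖(F0 + gd (box N) c x).1‖ ‖(F0 + gd (box N) c x).2‖
      = (‖F0.1‖ ^ 2 - ‖F0.2‖ ^ 2) + 2 * t *
        ∫ x in Icc (0 : V) 1, Kt t ‖(F0 + gd (box N) c x).2‖ ‖(F0 + gd (box N) c x).1‖ := by
    rw [← h2, ← integral_const_mul, ← integral_add i1 i2]
    exact integral_congr_ae (ae_of_all _ fun x => Ls_eq t _ _ ht)
  have h4 := mul_le_mul_of_nonneg_left h1 (by positivity : (0 : ℝ) ≤ 2 * t)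
  show Ls t ‖F0.1‖ ‖F0.2‖ ≤ ∫ x in Icc (0 : V) 1,
    Ls t ‖(F0 + gd (box N) c x).1‖ ‖(F0 + gd (box N) c x).2‖
  rw [h3, Ls_eq t _ _ ht]
  linarith

end Pool.Agent.W440.BQ.Qlb
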